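import Pool.Agent.Run7.h429.MR.General

/-!
# The dichotomy for `o κ` of cofinality greater than `κ`

The proofs are those of `Run7.h429.MR` (`o κ = κ⁺`), with the hypothesis that the cofinality of
`o κ` is greater than `κ`.
-/

namespace Run7.h429.MS

open Set Cardinal Run7.h429.MR

universe u v w

variable {κ : Ordinal.{u}} {M : CoherentSeq κ}

theorem base_set_top (r : Cond M) : r.base.set κ = Iio κ := Cond.withTop_set_top r _

theorem base_set_ne (r : Cond M) {ν : Ordinal.{u}} (h : ν ≠ κ) : r.base.set ν = r.set ν :=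
  Cond.withTop_set_ne r _ h

/-- Suprema of `κ` many ordinals below `o κ`. -/
theorem sup_lt (ho : κ.card < (M.o κ).cof) {J : Type (u + 1)}
    (hJ : #J ≤ #(Iio κ)) (f : J → Ordinal.{u}) (hf : ∀ j, f j < M.o κ) :
    ∃ b < M.o κ, ∀ j, f j ≤ b := by
  have hbd : BddAbove (range f) := ⟨M.o κ, by rintro _ ⟨j, rfl⟩; exact (hf j).le⟩
  refine ⟨⨆ j, f j, ?_, fun j => le_ciSup hbd j⟩
  refine Ordinal.lift_iSup_lt_of_lt_cof ?_ hf
  have h1 : (Ordinal.lift.{u + 1, u} (M.o κ)).cof = Cardinal.lift.{u + 1, u} (M.o κ).cof := by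
    rw [← Ordinal.lift_cof]
  rw [h1]
  have h2 : Cardinal.lift.{u, u + 1} #J ≤ #(Iio κ) :=
    (Cardinal.lift_id'.{u, u + 1} #J).le.trans hJ
  refine h2.trans_lt ?_
  rw [Cardinal.mk_Iio_ordinal]
  exact Cardinal.lift_lt.2 ho

/-- The pigeonhole principle. -/
theorem pigeonhole (ho : κ.card < (M.o κ).cof) {J : Type (u + 1)}
    (hJ : #J ≤ #(Iio κ)) (R : Ordinal.{u} → J → Prop)
    (hR : ∀ ξ < M.o κ, ∃ ζ, ξ ≤ ζ ∧ ζ < M.o κ ∧ ∃ j, R ζ j) :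
    ∃ j, ∀ ξ < M.o κ, ∃ ζ, ξ ≤ ζ ∧ ζ < M.o κ ∧ R ζ j := by
  by_contra hn
  push Not at hn
  choose f hf hf' using hn
  obtain ⟨b, hb, hb'⟩ := sup_lt ho hJ f hf
  obtain ⟨ζ, h1, h2, j, h3⟩ := hR b hb
  exact hf' j ζ ((hb' j).trans h1) h2 h3

theorem exists_sup (hκ : 0 < M.o κ) (ho : κ.card < (M.o κ).cof)
    (Ψ : Set (Cond M)) : ∃ b < M.o κ, ∀ n (t : Cond M), t ∈ Gd Ψ (n + 1) →
      ∃ ζ ≤ b, Yset t (Gd Ψ n) ∈ M.U κ ζ := by
  classical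
  have hch : ∀ j : (Codes κ) × ULift.{u + 1} ℕ, ∃ b < M.o κ, ∀ t : Cond M, t.code = j.1.1 →
      t ∈ Gd Ψ (j.2.down + 1) → ∃ ζ ≤ b, Yset t (Gd Ψ j.2.down) ∈ M.U κ ζ := by
    intro j
    by_cases h : ∃ t : Cond M, t.code = j.1.1 ∧ t ∈ Gd Ψ (j.2.down + 1)
    · obtain ⟨t₀, h1, ζ, hζ, h2⟩ := h
      refine ⟨ζ, hζ, ?_⟩
      intro t ht _
      refine ⟨ζ, le_rfl, ?_⟩
      rw [Gd_of_code (ht.trans h1.symm)]
      exact h2
    · exact ⟨0, hκ, fun t h1 h2 => absurd ⟨t, h1, h2⟩ h⟩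
  choose f hf hf' using hch
  have hJ : #((Codes κ) × ULift.{u + 1} ℕ) ≤ #(Iio κ) := by
    rw [Cardinal.mk_prod, Cardinal.lift_id, Cardinal.lift_id, Cardinal.mk_uLift,
      Cardinal.mk_nat, Cardinal.lift_aleph0]
    calc _ ≤ #(Iio κ) * #(Iio κ) := mul_le_mul' (mk_codes_le hκ) (aleph0_le hκ)
      _ = #(Iio κ) := Cardinal.mul_eq_self (aleph0_le hκ)
  obtain ⟨b, hb, hb'⟩ := sup_lt ho hJ f hf
  refine ⟨b, hb, ?_⟩
  intro n t ht
  obtain ⟨ζ, h1, h2⟩ := hf' (⟨t.code, code_mem_codes hκ t⟩, ⟨n⟩) t rfl ht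
  exact ⟨ζ, h1.trans (hb' _), h2⟩

theorem claimR (hκ : 0 < M.o κ) (ho : κ.card < (M.o κ).cof)
    {A : Ordinal.{u} → Set (Cond M)} {B : Set Ordinal.{u}}
    (hB : Good A B) {ν₀ : Ordinal.{u}} (hν₀ : B ⊆ Ioi ν₀) {p : Cond M}
    (hp1 : ∀ σ ∈ p.stem, σ ≤ ν₀) (hp2 : p.set κ ⊆ B)
    (hun : ∀ γ < κ, ∀ q ≤ p, ∃ r ≤ q, ∃ α, γ ≤ α ∧ α < κ ∧ r ∈ Dsent A B ν₀ α)
    {s : Cond M} (hs : s.withTop p.top ≤ p) :
    ∃ ξ < M.o κ, ∀ ζ, ξ ≤ ζ → ζ < M.o κ → {ν | ν ∈ Yset s (Dsent A B ν₀ ν)} ∈ M.U κ ζ := by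
  classical
  by_contra hn
  push Not at hn
  have hJ : #((Codes κ) × Iio κ) ≤ #(Iio κ) := by
    rw [Cardinal.mk_prod, Cardinal.lift_id, Cardinal.lift_id]
    calc _ ≤ #(Iio κ) * #(Iio κ) := mul_le_mul' (mk_codes_le hκ) le_rfl
      _ = #(Iio κ) := Cardinal.mul_eq_self (aleph0_le hκ)
  obtain ⟨⟨⟨c, hc⟩, ⟨μ, hμ⟩⟩, hR⟩ := pigeonhole ho hJ
    (fun ζ j => RelR A B ν₀ p ζ j.1.1 j.2.1) (by
      intro ξ hξ
      obtain ⟨ζ, h1, h2, h3⟩ := hn ξ hξ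
      obtain ⟨c, hc, μ, hμ, h4⟩ := relR_of_bad hκ hB hν₀ hp1 hp2 hs h2 h3
      exact ⟨ζ, h1, h2, (⟨c, hc⟩, ⟨μ, hμ⟩), h4⟩)
  simp only at hR
  obtain ⟨ζ₀, -, hζ₀, t₁, ht₁, ht₁p, -⟩ := hR 0 hκ
  set Ψ : Set (Cond M) := {t | ∃ α, μ < α ∧ StarF t (Dsent A B ν₀ α)} with hΨdef
  have hΨ : ∀ t₁ t, Shr t₁ t → t ∈ Ψ → t₁ ∈ Ψ := by
    rintro t₁ t h ⟨α, h1, h2⟩
    exact ⟨α, h1, h.starF (Dsent_isSentence A B ν₀ α) h2⟩
  obtain ⟨TG, hTGF, hTG⟩ := exists_TG M Ψ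
  set T : TopSet M := ⟨TG ∩ Iio κ, inter_subset_right,
    Filter.inter_mem hTGF (CoherentSeq.Iio_mem_F le_rfl)⟩ with hT
  have hqp : t₁.withTop (p.top.inter T) ≤ p :=
    (Cond.withTop_le inter_subset_left).trans ht₁p
  obtain ⟨r, hr, α₀, hα₀, _, hrD⟩ := hun (Order.succ μ) ((M.normal κ le_rfl 0 hκ).succ_lt hμ)
    (t₁.withTop (p.top.inter T)) hqp
  set S : Set Ordinal.{u} := {ρ | ¬ ∀ σ ∈ t₁.stem, σ < ρ} with hS
  have hSlt : ∀ ρ ∈ S, ∀ ν, ν ∉ S → ρ < ν := by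
    intro ρ hρ ν hν
    have h1 : ¬ ∀ σ ∈ t₁.stem, σ < ρ := hρ
    push Not at h1
    obtain ⟨σ, hσ, h2⟩ := h1
    exact h2.trans_lt (not_not.1 hν σ hσ)
  have hrΨ : r ∈ Gd Ψ 0 := ⟨α₀, Order.succ_le_iff.1 hα₀, starF_self hrD⟩
  obtain ⟨n, hn'⟩ := peel hΨ (fun ρ hρ t ht n => (hTG ρ hρ).2 t ht n) hSlt _ r 0 rfl (by
    intro ρ hρ hρS
    have := (Cond.new_mem hr hρ (not_not.1 hρS)).1
    rw [Cond.withTop_set_top] at this
    exact this.2.1) hrΨ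
  obtain ⟨b, hb, hsup⟩ := exists_sup hκ ho Ψ
  have hb' : Order.succ b < M.o κ := by
    by_contra hcon
    have he : M.o κ = Order.succ b := le_antisymm (not_lt.1 hcon) (Order.succ_le_of_lt hb)
    have hc1 : (M.o κ).cof = 1 := by
      rw [he]
      simp
    rw [hc1, Cardinal.lt_one_iff] at ho
    have h0 : (1 : Cardinal) ≤ κ.card := by
      refine le_trans Cardinal.one_le_aleph0 ?_
      rw [Ordinal.aleph0_le_card]
      exact (M.normal κ le_rfl 0 hκ).omega_lt.le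
    rw [ho] at h0
    exact absurd h0 (by simp)
  obtain ⟨ζ, hbζ, hζ, t₂, ht₂, -, E, hE, hEU⟩ := hR (Order.succ b) hb'
  have hbζ' : b < ζ := Order.succ_le_iff.1 hbζ
  have hbase : t₂.base = t₁.base := Cond.base_eq_of_code (ht₂.trans ht₁.symm)
  have hBel : Bel E (r.restr S) t₁ := by
    refine ⟨?_, ?_⟩
    · intro σ hσ
      refine Cond.mem_restr_stem.2 ⟨hr.1 hσ, ?_⟩
      intro h
      exact lt_irrefl _ (h σ hσ)
    · intro ρ hρ l hl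
      obtain ⟨h1, h2⟩ := Cond.mem_restr_stem.1 hρ
      have h2' : ¬ ∀ σ ∈ t₁.stem, σ < ρ := h2
      push Not at h2'
      obtain ⟨σ, hσ, h3⟩ := h2'
      have hlκ : l ≠ κ := ((hl.2.2 σ (Or.inr hσ) h3).trans_lt (t₁.lt σ hσ)).ne
      refine ⟨fun _ => ?_, fun h => absurd h hlκ⟩
      have h4 := hr.2 ρ (Or.inr h1) l hl
      rw [Cond.withTop_set_ne _ _ hlκ] at h4
      rw [Cond.restr_set _ h2]
      exact h4
  obtain ⟨t', ⟨α, hμα, hstar⟩, hBel'⟩ := descend hΨ hsup (E := E) (by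
    intro γ hγ
    refine ⟨hE γ (hγ.trans_lt hbζ'), ?_⟩
    exact (CoherentSeq.reflect (M := M) le_rfl ((hγ.trans_lt hbζ').trans hζ) (X := E)).1
      (fun γ' hγ' => hE γ' (hγ'.trans (hγ.trans_lt hbζ')))) t₁ n _ hn' hBel
  obtain ⟨W, hW⟩ := hstar
  have hακ : α < κ := hB.sub hW.1
  obtain ⟨ν, ⟨⟨h1, hν, hE₁, C, hC⟩, h2, h3, h4⟩, hαν, -⟩ :=
    (M.normal κ le_rfl ζ hζ).exists_gt hακ
      (Filter.inter_mem hEU (Filter.inter_mem (CoherentSeq.mem_F.1 W.2.2 ζ hζ)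
        (Filter.inter_mem (CoherentSeq.reflect_F le_rfl hζ W.2.2) (stems_lt_mem hζ t'))))
  rw [← Cond.base_ext, hbase, Cond.base_ext] at hC
  have hE₂ : E ∩ W.1 ∩ Iio ν ⊆ Iio ν ∧ E ∩ W.1 ∩ Iio ν ∈ M.F ν := by
    refine ⟨inter_subset_right, ?_⟩
    exact Filter.mem_of_superset (Filter.inter_mem hE₁.2 h3)
      (fun x hx => ⟨⟨hx.1.1, hx.2⟩, hx.1.2⟩)
  have h5 : t'.ext ν hν (E ∩ W.1 ∩ Iio ν) hE₂ (C.inter W) ≤
      t₁.ext ν hν (E ∩ Iio ν) hE₁ C :=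
    hBel'.ext_le hν h4 hE₂ hE₁ (fun x hx => ⟨hx.1.1, hx.2⟩) (fun x h6 h7 => ⟨h6, h7⟩)
      inter_subset_left
  have h6 : t'.ext ν hν (E ∩ W.1 ∩ Iio ν) hE₂ (C.inter W) ≤ t'.withTop W :=
    Cond.ext_le_withTop hν hE₂ h4 h2 (fun x hx => hx.1.2) inter_subset_right
  exact hC α hμα hαν _ h5 ((Dsent_isSentence A B ν₀ α).down hW h6)

theorem unbounded_case (hκ : 0 < M.o κ) (ho : κ.card < (M.o κ).cof)
    {A : Ordinal.{u} → Set (Cond M)} (hA : ∀ β, IsSentence (A β)) {B : Set Ordinal.{u}}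
    (hB : Good A B) {ν₀ : Ordinal.{u}} (hν₀ : B ⊆ Ioi ν₀) {p : Cond M}
    (hp1 : ∀ σ ∈ p.stem, σ ≤ ν₀) (hp2 : p.set κ ⊆ B)
    (hun : ∀ γ < κ, ∀ q ≤ p, ∃ r ≤ q, ∃ α, γ ≤ α ∧ α < κ ∧ r ∈ Dsent A B ν₀ α) :
    ∃ q ≤ p, ∃ ξ < M.o κ, ∃ X : Set Ordinal.{u}, (∀ ζ, ξ ≤ ζ → ζ < M.o κ → X ∈ M.U κ ζ) ∧
      X ⊆ B ∧ ∀ α ∈ X, ForcesIff q (club M α) (Dsent A B ν₀ α) := by
  classical
  have hch : ∀ c : Codes κ, ∃ ξ < M.o κ, ∀ s : Cond M, s.code = c.1 → s.withTop p.top ≤ p →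
      ∀ ζ, ξ ≤ ζ → ζ < M.o κ → {ν | ν ∈ Yset s (Dsent A B ν₀ ν)} ∈ M.U κ ζ := by
    intro c
    by_cases h : ∃ s : Cond M, s.code = c.1 ∧ s.withTop p.top ≤ p
    · obtain ⟨s, h1, h2⟩ := h
      obtain ⟨ξ, h3, h4⟩ := claimR hκ ho hB hν₀ hp1 hp2 hun h2
      refine ⟨ξ, h3, ?_⟩
      intro s' hs' _ ζ h5 h6
      have := h4 ζ h5 h6
      have hb : s'.base = s.base := Cond.base_eq_of_code (hs'.trans h1.symm)
      refine Filter.mem_of_superset this ?_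
      intro ν hν
      have hν' : ν ∈ Yset s (Dsent A B ν₀ ν) := hν
      change ν ∈ Yset s' (Dsent A B ν₀ ν)
      rwa [← Yset_base, hb, Yset_base]
    · exact ⟨0, hκ, fun s h1 h2 => absurd ⟨s, h1, h2⟩ h⟩
  choose f hf hf' using hch
  obtain ⟨ξ, hξ, hξ'⟩ := sup_lt ho (mk_codes_le hκ) f hf
  obtain ⟨BD, hBD, hTD⟩ := exists_typical M (fun α _ => Dsent A B ν₀ α)
  set T : TopSet M := ⟨BD ∩ Iio κ, inter_subset_right,
    Filter.inter_mem hBD (CoherentSeq.Iio_mem_F le_rfl)⟩ with hT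
  set X : Set Ordinal.{u} := {α | α ∈ B ∧ ∀ s : Cond M, (∀ σ ∈ s.stem, σ < α) →
    s.withTop p.top ≤ p → α ∈ Yset s (Dsent A B ν₀ α)} with hX
  refine ⟨p.withTop (p.top.inter T), Cond.le_withTop_of_le T le_rfl, ξ, hξ, X, ?_,
    fun α hα => hα.1, ?_⟩
  · intro ζ hξζ hζ
    have hN := M.normal κ le_rfl ζ hζ
    have h1 := diag_stems_U hζ (fun s _ _ => {α | s.withTop p.top ≤ p →
      α ∈ Yset s (Dsent A B ν₀ α)}) (by
        intro t β γ _ _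
        by_cases h : t.withTop p.top ≤ p
        · refine Filter.mem_of_superset (hf' ⟨t.code, code_mem_codes hκ t⟩ t rfl h ζ
            ((hξ' _).trans hξζ) hζ) ?_
          intro ν hν _
          exact hν
        · exact Filter.mem_of_superset Filter.univ_mem (fun _ _ h' => absurd h' h))
    refine Filter.mem_of_superset (Filter.inter_mem h1 (Filter.inter_mem
      (CoherentSeq.mem_F.1 hB.mem ζ hζ) (hN.Ioi_mem hN.pos))) ?_
    rintro α ⟨h2, h3, h4⟩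
    refine ⟨h3, ?_⟩
    intro s hs hsp
    have h5 := h2 s hs 0 h4 0 h4
    have h6 : s.base.withTop p.top ≤ p := by rwa [Cond.base_withTop]
    have h7 : α ∈ Yset s.base (Dsent A B ν₀ α) := h5 h6
    rwa [Yset_base] at h7
  · intro α hα q hq
    have hqp : q ≤ p := hq.trans (Cond.le_withTop_of_le T le_rfl)
    have hαB : α ∈ B := hα.1
    have hν₀α : ν₀ < α := hν₀ hαB
    constructor
    · intro hqα
      rw [Dsent_isSentence A B ν₀ α q]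
      intro q' hq'
      have hαq' : α ∈ q'.stem := hq'.1 (mem_club.1 hqα)
      have hq'p : q' ≤ p := hq'.trans hqp
      have h1 : (q'.restr (Iio α)).withTop p.top ≤ p :=
        Cond.restr_withTop_le hq'p (fun ρ hρ => (hp1 ρ hρ).trans_lt hν₀α)
      obtain ⟨h2, hακ, E, hE, C, h3⟩ := hα.2 _ (fun σ hσ => (Cond.mem_restr_stem.1 hσ).2) h1
      have hE' : E ∩ q'.set α ⊆ Iio α ∧ E ∩ q'.set α ∈ M.F α :=
        ⟨inter_subset_left.trans hE.1, Filter.inter_mem hE.2 (q'.meas α (Or.inr hαq'))⟩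
      set t : Cond M := (q'.restr (Iio α)).ext α hακ (E ∩ q'.set α) hE' C with ht
      have h4 : StarF t (Dsent A B ν₀ α) := by
        refine Shr.starF ?_ (Dsent_isSentence A B ν₀ α) (starF_self h3)
        exact (Shr.refl _).ext hακ hE hE' inter_subset_left C C
      have hstem : t.stem = (q'.restr (Iic α)).stem := by
        ext ρ
        rw [ht, Cond.ext_stem, Finset.mem_insert, Cond.mem_restr_stem, Cond.mem_restr_stem]
        constructor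
        · rintro (h | h)
          · rw [h]
            exact ⟨hαq', le_refl α⟩
          · exact ⟨h.1, (show ρ < α from h.2).le⟩
        · rintro ⟨h5, h6⟩
          rcases (show ρ ≤ α from h6).lt_or_eq with h | h
          · exact Or.inr ⟨h5, h⟩
          · exact Or.inl h
      have h5 : t.base ≤ (q'.restr (Iic α)).base := by
        refine Cond.le_of_subset hstem ?_
        intro ρ hρ
        by_cases hρκ : ρ = κ
        · subst hρκ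
          rw [base_set_top, base_set_top]
        · rw [base_set_ne _ hρκ, base_set_ne _ hρκ]
          have hρt : ρ ∈ t.stem := by
            rcases hρ with h | h
            · exact absurd h hρκ
            · exact h
          have hρα : ρ ≤ α := by
            rw [hstem] at hρt
            exact (Cond.mem_restr_stem.1 hρt).2
          rw [Cond.restr_set _ (show ρ ∈ Iic α from hρα)]
          by_cases hρα' : ρ = α
          · subst hρα'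
            rw [ht, Cond.ext_set_self]
            exact inter_subset_right
          · rw [ht, Cond.ext_set_ne _ _ _ _ _ _ hρκ hρα', Cond.restr_set]
            exact lt_of_le_of_ne hρα hρα'
      obtain ⟨r', h6, h7, -⟩ := mem_of_low (Φ := fun α _ => Dsent A B ν₀ α) (β := α) (γ := α)
        (μ := α) hTD (Dsent_isSentence A B ν₀ α) (r := q') (by
          intro ρ hρ hαρ
          have h8 := Cond.new_mem (hq'.trans hq) hρ
            (fun σ hσ => ((hp1 σ hσ).trans_lt hν₀α).trans hαρ)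
          rw [Cond.withTop_set_top] at h8
          exact ⟨h8.1.2.1, hαρ, hαρ⟩) h5 (by
          intro ρ hρ
          rw [hstem] at hρ
          obtain ⟨h9, h10⟩ := Cond.mem_restr_stem.1 hρ
          exact ⟨ρ, h9, h10, le_rfl⟩) h4
      exact ⟨r', h6, h7⟩
    · intro hqD
      refine mem_club.2 (Dsent_stem hκ hA hB (q := q) ?_ hqD)
      exact (Her.of_top hp1 hp2).mono hqp

/-- The dichotomy for names of subsets of `κ`. -/
theorem dichotomy_small (hκ : 0 < M.o κ) (ho : κ.card < (M.o κ).cof)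
    {A : Ordinal.{u} → Set (Cond M)} (hA : ∀ β, IsSentence (A β)) (p : Cond M) :
    ∃ q ≤ p, (∃ ν < κ, ν ∈ q.stem ∧ (∀ σ ∈ q.stem, σ ≤ ν) ∧
        Computes q (fun μ : Iic ν => club M μ) (fun β : Iio κ => A β)) ∨
      (∃ ξ < M.o κ, ∃ X : Set Ordinal.{u}, (∀ ζ, ξ ≤ ζ → ζ < M.o κ → X ∈ M.U κ ζ) ∧
        Computes q (fun β : Iio κ => A β) (fun α : X => club M α)) := by
  classical
  obtain ⟨B₀, hB₀⟩ := exists_good hκ A
  have hbd : ∀ s : Finset Ordinal.{u}, (∀ σ ∈ s, σ < κ) → ∃ ν₀ < κ, ∀ σ ∈ s, σ ≤ ν₀ := by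
    intro s
    induction s using Finset.induction_on with
    | empty => exact fun _ => ⟨0, CoherentSeq.pos hκ, by simp⟩
    | insert a s ha ih =>
      intro hs
      obtain ⟨μ, h1, h2⟩ := ih (fun σ hσ => hs σ (Finset.mem_insert_of_mem hσ))
      refine ⟨max μ a, max_lt h1 (hs a (Finset.mem_insert_self _ _)), ?_⟩
      intro σ hσ
      rcases Finset.mem_insert.1 hσ with rfl | hσ
      · exact le_max_right _ _
      · exact (h2 σ hσ).trans (le_max_left _ _)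
  obtain ⟨ν₀, hν₀κ, hν₀p⟩ := hbd p.stem p.lt
  set B : Set Ordinal.{u} := B₀ ∩ Ioi ν₀ with hBdef
  have hB : Good A B :=
    { sub := inter_subset_left.trans hB₀.sub
      mem := Filter.inter_mem hB₀.mem (CoherentSeq.Ioi_mem_F le_rfl hν₀κ)
      typ := hB₀.typ.mono inter_subset_left
      cls := fun μ hμ => hB₀.cls μ hμ.1 }
  set T : TopSet M := ⟨B, hB.sub, hB.mem⟩ with hT
  set p₁ : Cond M := p.withTop (p.top.inter T) with hp₁
  have hp₁p : p₁ ≤ p := Cond.le_withTop_of_le T le_rfl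
  have h1 : ∀ σ ∈ p₁.stem, σ ≤ ν₀ := hν₀p
  have h2 : p₁.set κ ⊆ B := by
    rw [hp₁, Cond.withTop_set_top]
    exact inter_subset_right
  by_cases hun : ∀ γ < κ, ∀ q ≤ p₁, ∃ r ≤ q, ∃ α, γ ≤ α ∧ α < κ ∧ r ∈ Dsent A B ν₀ α
  · obtain ⟨q, hq, ξ, hξ, X, hX, hXB, hXD⟩ := unbounded_case hκ ho hA hB inter_subset_right h1 h2
      hun
    exact ⟨q, hq.trans hp₁p, Or.inr ⟨ξ, hξ, X, hX,
      fun α => ⟨_, Dsent_generated A hB hκ ν₀ α, hXD α α.2⟩⟩⟩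
  · push Not at hun
    obtain ⟨γ, hγ, q, hq, hno⟩ := hun
    obtain ⟨r, hr, ν, hν, h3, h4, h5⟩ := bounded_of_not_unbounded hκ hA hB inter_subset_right
      ((Her.of_top h1 h2).mono hq) hγ hno
    exact ⟨r, hr.trans (hq.trans hp₁p), Or.inl ⟨ν, hν, h3, h4, h5⟩⟩

/-- The dichotomy. -/
theorem dichotomy (hκ : 0 < M.o κ) (ho : κ.card < (M.o κ).cof) {ι : Type w}
    {A : ι → Set (Cond M)} (hA : ∀ i, IsSentence (A i)) (p : Cond M) :
    ∃ q ≤ p, (∃ ν < κ, Computes q (fun μ : Iic ν => club M μ) A) ∨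
      (∃ ξ < M.o κ, ∃ X : Set Ordinal.{u}, (∀ ζ, ξ ≤ ζ → ζ < M.o κ → X ∈ M.U κ ζ) ∧
        Computes q A (fun α : X => club M α)) := by
  obtain ⟨A', h1, h2, h3⟩ := exists_small hκ A hA
  obtain ⟨q, hq, h | h⟩ := dichotomy_small hκ ho h1 p
  · obtain ⟨ν, hν, h4, h5, h6⟩ := h
    exact ⟨q, hq, Or.inl ⟨ν, hν, h3 q ν h4 h5 h6⟩⟩
  · obtain ⟨ξ, hξ, X, hX, h4⟩ := h
    refine ⟨q, hq, Or.inr ⟨ξ, hξ, X, hX, ?_⟩⟩
    intro α
    obtain ⟨φ, hφ, hφ'⟩ := h4 α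
    exact ⟨φ, generated_mono (A' := fun β : Iio κ => A' β) (fun β => h2 β) hφ, hφ'⟩

end Run7.h429.MS
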